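import Pool.Agent.T2H36.FP.P2
import Pool.Agent.T2H36.BR.B2

set_option autoImplicit false
set_option linter.unusedSectionVars false
set_option linter.style.haveILetI false

/-!
Certificates at places, part 3: the Brauer group.
-/

open Matrix Polynomial Filter Topology NumberField IsDedekindDomain
open Pool.Agent.Y142.ZO Pool.Agent.Y142.ZI
open Pool.Agent.Y142.ZS (NiceP GenP Sim SpLie)
open Pool.Agent.Y142.SS Pool.Agent.Y142.SI Pool.Agent.Y142.SU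
open Pool.Agent.Y95.MT
open Pool.Agent.T2H36.IX

namespace Pool.Agent.T2H36.FP

open Pool.Agent.R932 Pool.Agent.R932.OP

variable {K : Type} [Field K] [NumberField K] {S : Set (HeightOneSpectrum (𝓞 K))}
  {Γ : Type} [Group Γ] [TopologicalSpace Γ] [IsTopologicalGroup Γ] [CompactSpace Γ]
  {s : GK K →* Γ}

/-- **odd rank, from finitely many places** -/
theorem bounded_places {n : ℕ} {P : HeightOneSpectrum (𝓞 K) → ℚ[X]} (hodd : Odd n) (hn : 5 ≤ n)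
    (hS : S.Finite) (β : ∀ (ℓ : ℕ) [Fact ℓ.Prime], Γ →* Matrix (Fin n) (Fin n) ℤ_[ℓ])
    (hβ : ∀ (ℓ : ℕ) [Fact ℓ.Prime], Continuous (β ℓ)) {Z : Matrix (Fin n) (Fin n) ℤ}
    (hZ : Z.det ≠ 0)
    (hsys : ∀ (ℓ : ℕ) [Fact ℓ.Prime], IntegralSys K n ℓ s (β ℓ) (Z.map (Int.cast : ℤ → ℤ_[ℓ])) S P)
    {v₀ v₁ : HeightOneSpectrum (𝓞 K)} {Q₀ Q₁ : ℚ[X]}
    (hv₀ : GoodPlace S P v₀ Q₀)
    (h0 : ∀ x y z : ℂ, aeval x Q₀ = 0 → aeval y Q₀ = 0 → aeval z Q₀ = 0 → x * y ≠ z)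
    (hv₁ : GoodPlace S P v₁ Q₁)
    (hsq : ¬ IsSquare (Q₀.eval 1 * Q₀.eval (-1) * (Q₁.eval 1 * Q₁.eval (-1))))
    {m : ℕ} (u : Fin (m + 1) → HeightOneSpectrum (𝓞 K)) (hu : ∀ i, NiceP S P (u i))
    (hI : ∀ (g : GK ℚ) (d : ℕ), 2 ≤ d → (d = 2 ∨ d + 2 ≤ n) →
      ∃ v, NiceP S P v ∧ ∃ w ∈ NoSet d (P v), w⁻¹ * g ∈ Subgroup.closure (⋃ i, Fix (P (u i)))) :
    BR.Bounded β := by
  have hALG : Y142.ZO.S_ALG := Y142.ZO.alg_main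
  have hISO : Y142.ZO.S_ISO := Y337.ZO.iso_t
  have hLINE : Y142.ZO.S_LINE := Y337.ZO.line_t
  have hTAN : Y142.ZO.S_TAN := Y708.ZO.t
  have hLOG : Y142.ZO.S_LOG := Y497.ZO.log
  have hEXP : Y142.ZO.S_EXP := Y497.ZO.exp
  have hPOW : Y142.ZO.S_POW := Y497.ZO.pow
  have hSPEC : Y142.ZO.S_SPEC := Y96.ZO.t
  have hAPP : Y142.ZO.S_APP := Y815.ZO.t Y337.ZO.det_t Y337.ZO.qz_t hLOG
  have hFROB : Y142.ZO.S_FROB := Y405.ZO.t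
  have hBAD : Y142.ZO.S_BAD := Y458.ZO.bad hISO hLINE
  have hVAL : Y142.ZO.S_VAL := Y405.ZO.t1
  have hDENS : Y142.ZO.S_DENS := Y394.ZO.t1
  have hINF : Y142.ZO.S_INF := Y394.ZO.t2
  have hINT : Y142.ZI.S_INT := Y484.ZI.t1
  have hCHEB : Y142.ZI.S_CHEB := Y726.ZI.t1
  have hDENS2 : Y142.ZI.S_DENS2 := Y681.ZI.t hCHEB
  have hMULTI : Y142.ZI.S_MULTI := Y537.ZI.t
  have hLF : Y142.SS.S_LF := Y255.SS.t
  have hCF : Y142.SS.S_CF := Y297.SS.t hLF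
  have hLOC : Y142.SS.S_LOC := Y708.SS.Loc.t hCF
  have hLOGR : Y142.SS.S_LOGR := Y936.SS.t
  have hKRS : Y142.SS.S_KRS := Y518.SS.t
  have hCHARA : Y142.SS.S_CHARA := Y737.SS.Chara.t
  have hBADD : Y142.ZD.S_BADD := Y614.ZD.t
  have hSUB : Y142.ZD.S_SUB := Y100.ZD.t
  have hden := density_odd hALG hISO hLINE hTAN hLOG hEXP hPOW hSPEC hAPP
    hFROB hBAD hVAL hDENS hINF hLOC hLOGR hKRS hCHARA hMULTI hINT hDENS2 hBADD hSUB hodd hS hv₀ h0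
    hv₁ hsq (fun ℓ _ => genRep ℓ ((β ℓ).comp s))
    (fun ℓ _ => genM ℓ (Z.map (Int.cast : ℤ → ℤ_[ℓ])))
    (fun ℓ _ => orthogonal_of (hsys ℓ)) u hu hI
  obtain ⟨ℓ₀, hp, hℓ, hnot⟩ := exists_prime hden n
  haveI : Fact ℓ₀.Prime := ⟨hp⟩
  refine BR.bounded_odd hodd hn hS β hβ hZ hsys ℓ₀ (fun h => ?_) ?_
  · have := Nat.le_of_dvd (by omega) h
    omega
  · by_contra hcon
    exact hnot ⟨⟨hp⟩, hcon⟩

end Pool.Agent.T2H36.FP
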