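import Pool.Agent.T2H36.FP.P1
import Pool.Agent.R932.SumDens

set_option autoImplicit false
set_option linter.unusedSectionVars false
set_option linter.style.haveILetI false

/-!
Certificates at places, part 2: from Frobenius polynomials at finitely many places to one prime.
-/

open Matrix Polynomial Filter Topology NumberField IsDedekindDomain
open Pool.Agent.Y142.ZO Pool.Agent.Y142.ZI
open Pool.Agent.Y142.ZS (NiceP GenP Sim SpLie)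
open Pool.Agent.Y142.SS Pool.Agent.Y142.SI Pool.Agent.Y142.SU
open Pool.Agent.Y95.MT
open Pool.Agent.W544.PG (HS BD)
open Pool.Agent.T2H36.IX

namespace Pool.Agent.T2H36.FP

open Pool.Agent.R932 Pool.Agent.R932.OP

/-- there are large primes outside of a set of density zero -/
theorem exists_prime {A : Set ℕ} (hA : Y142.ZI.DensityZero A) (b : ℕ) :
    ∃ ℓ : ℕ, ℓ.Prime ∧ b < ℓ ∧ ℓ ∉ A := by
  by_contra hcon
  push Not at hcon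
  have h1 : Y142.ZI.DensityZero {ℓ | ℓ.Prime} := by
    refine Y142.ZI.DensityZero.mono (hA.union (density_bounded (A := {ℓ | ℓ ≤ b}) (b := b)
      fun ℓ h => h)) ?_
    intro ℓ hℓ
    by_cases h : b < ℓ
    · exact Or.inl (hcon ℓ hℓ h)
    · exact Or.inr (not_lt.1 h)
  unfold Y142.ZI.DensityZero at h1
  have h2 : ∀ n : ℕ, 2 ≤ n → (Nat.card {ℓ : ℕ // ℓ ≤ n ∧ ℓ ∈ {ℓ : ℕ | ℓ.Prime}} : ℝ) /
      (Nat.primeCounting n : ℝ) = 1 := by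
    intro n hn
    have h3 : Nat.card {ℓ : ℕ // ℓ ≤ n ∧ ℓ ∈ {ℓ : ℕ | ℓ.Prime}} = Nat.primeCounting n := by
      rw [← Nat.primesLE_card_eq_primeCounting, ← Nat.card_eq_finsetCard]
      refine Nat.card_congr (Equiv.subtypeEquivRight fun ℓ => ?_)
      rw [Nat.mem_primesLE]
      rfl
    rw [h3]
    have h4 : 0 < Nat.primeCounting n := by
      have := Nat.monotone_primeCounting hn
      have h5 : Nat.primeCounting 2 = 1 := by decide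
      omega
    exact div_self (by exact_mod_cast h4.ne')
  have h3 : Tendsto (fun n : ℕ => (Nat.card {ℓ : ℕ // ℓ ≤ n ∧ ℓ ∈ {ℓ : ℕ | ℓ.Prime}} : ℝ) /
      (Nat.primeCounting n : ℝ)) atTop (𝓝 1) :=
    tendsto_const_nhds.congr' (by
      filter_upwards [eventually_ge_atTop 2] with n hn
      exact (h2 n hn).symm)
  exact zero_ne_one (tendsto_nhds_unique h1 h3)

section places

variable {K : Type} [Field K] [NumberField K] {n : ℕ} {S : Set (HeightOneSpectrum (𝓞 K))}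
  {P : HeightOneSpectrum (𝓞 K) → ℚ[X]} {T : HS n}

/-- **odd rank** -/
theorem odd_prime (hn : Odd n) (h5 : 5 ≤ n) (hS : S.Finite)
    (β : ∀ (ℓ : ℕ) [Fact ℓ.Prime], GK K →* Matrix (Fin n) (Fin n) ℤ_[ℓ])
    (hβ : ∀ (ℓ : ℕ) [Fact ℓ.Prime], RepT (MonoidHom.id (GK K)) T S P ℓ (β ℓ))
    {v₀ v₁ : HeightOneSpectrum (𝓞 K)} {Q₀ Q₁ : ℚ[X]}
    (hv₀ : GoodPlace S P v₀ Q₀)
    (h0 : ∀ x y z : ℂ, aeval x Q₀ = 0 → aeval y Q₀ = 0 → aeval z Q₀ = 0 → x * y ≠ z)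
    (hv₁ : GoodPlace S P v₁ Q₁)
    (hsq : ¬ IsSquare (Q₀.eval 1 * Q₀.eval (-1) * (Q₁.eval 1 * Q₁.eval (-1))))
    {m : ℕ} (u : Fin (m + 1) → HeightOneSpectrum (𝓞 K)) (hu : ∀ i, NiceP S P (u i))
    (hI : ∀ (g : GK ℚ) (d : ℕ), 2 ≤ d → (d = 2 ∨ d + 2 ≤ n) →
      ∃ v, NiceP S P v ∧ ∃ w ∈ NoSet d (P v), w⁻¹ * g ∈ Subgroup.closure (⋃ i, Fix (P (u i)))) :
    ∃ (ℓ₀ : ℕ) (_ : Fact ℓ₀.Prime), GoodPrime n T.Q ℓ₀ ∧
      FullLie ℓ₀ ((qrep (β ℓ₀)).comp (MonoidHom.id (GK K))) (T.Q.map (algebraMap ℚ ℚ_[ℓ₀])) := by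
  have hALG : Y142.ZO.S_ALG := Y142.ZO.alg_main
  have hISO : Y142.ZO.S_ISO := Y337.ZO.iso_t
  have hLINE : Y142.ZO.S_LINE := Y337.ZO.line_t
  have hTAN : Y142.ZO.S_TAN := Y708.ZO.t
  have hLOG : Y142.ZO.S_LOG := Y497.ZO.log
  have hEXP : Y142.ZO.S_EXP := Y497.ZO.exp
  have hPOW : Y142.ZO.S_POW := Y497.ZO.pow
  have hSPEC : Y142.ZO.S_SPEC := Y96.ZO.t
  have hAPP : Y142.ZO.S_APP := Y815.ZO.t Y337.ZO.det_t Y337.ZO.qz_t hLOG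
  have hFROB : Y142.ZO.S_FROB := Y405.ZO.t
  have hBAD : Y142.ZO.S_BAD := Y458.ZO.bad hISO hLINE
  have hVAL : Y142.ZO.S_VAL := Y405.ZO.t1
  have hDENS : Y142.ZO.S_DENS := Y394.ZO.t1
  have hINF : Y142.ZO.S_INF := Y394.ZO.t2
  have hINT : Y142.ZI.S_INT := Y484.ZI.t1
  have hCHEB : Y142.ZI.S_CHEB := Y726.ZI.t1
  have hDENS2 : Y142.ZI.S_DENS2 := Y681.ZI.t hCHEB
  have hMULTI : Y142.ZI.S_MULTI := Y537.ZI.t
  have hLF : Y142.SS.S_LF := Y255.SS.t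
  have hCF : Y142.SS.S_CF := Y297.SS.t hLF
  have hLOC : Y142.SS.S_LOC := Y708.SS.Loc.t hCF
  have hLOGR : Y142.SS.S_LOGR := Y936.SS.t
  have hKRS : Y142.SS.S_KRS := Y518.SS.t
  have hCHARA : Y142.SS.S_CHARA := Y737.SS.Chara.t
  have hBADD : Y142.ZD.S_BADD := Y614.ZD.t
  have hSUB : Y142.ZD.S_SUB := Y100.ZD.t
  have hden := density_odd hALG hISO hLINE hTAN hLOG hEXP hPOW hSPEC hAPP
    hFROB hBAD hVAL hDENS hINF hLOC hLOGR hKRS hCHARA hMULTI hINT hDENS2 hBADD hSUB hn hS hv₀ h0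
    hv₁ hsq (fun ℓ _ => (qrep (β ℓ)).comp (MonoidHom.id (GK K)))
    (fun ℓ _ => T.Q.map (algebraMap ℚ ℚ_[ℓ]))
    (fun ℓ _ => (hβ ℓ).orthogonal continuous_id) u hu hI
  obtain ⟨ℓ₀, hp, hℓ, hnot⟩ := exists_prime hden n
  haveI : Fact ℓ₀.Prime := ⟨hp⟩
  refine ⟨ℓ₀, ⟨hp⟩, Or.inl ⟨hn, h5, fun h => ?_⟩, ?_⟩
  · have := Nat.le_of_dvd (by omega) h
    omega
  · by_contra hcon
    exact hnot ⟨⟨hp⟩, hcon⟩

/-- **even rank** -/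
theorem even_prime (hn : Even n) (h8 : 8 ≤ n) (hS : S.Finite)
    (β : ∀ (ℓ : ℕ) [Fact ℓ.Prime], GK K →* Matrix (Fin n) (Fin n) ℤ_[ℓ])
    (hβ : ∀ (ℓ : ℕ) [Fact ℓ.Prime], RepT (MonoidHom.id (GK K)) T S P ℓ (β ℓ))
    {w₀ : HeightOneSpectrum (𝓞 K)} (hw₀ : GenP S P (fun _ => 1) w₀)
    {m : ℕ} (u : Fin (m + 1) → HeightOneSpectrum (𝓞 K)) (hu : ∀ i, NiceP S P (u i))
    (hI : ∀ (g : GK ℚ) (d : ℕ), 0 < d → d < n →
      ∃ v, NiceP S P v ∧ ∃ w ∈ NoSet d (P v), w⁻¹ * g ∈ Subgroup.closure (⋃ i, Fix (P (u i))))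
    (hII : ∀ g : GK ℚ, ∃ v, NiceP S P v ∧ ∃ w : GK ℚ, (∃ x : QQ, aeval x (P v) = 0 ∧ w x = x) ∧
      w⁻¹ * g ∈ Subgroup.closure (⋃ i, Fix (P (u i)))) :
    ∃ (ℓ₀ : ℕ) (_ : Fact ℓ₀.Prime), GoodPrime n T.Q ℓ₀ ∧
      FullLie ℓ₀ ((qrep (β ℓ₀)).comp (MonoidHom.id (GK K))) (T.Q.map (algebraMap ℚ ℚ_[ℓ₀])) := by
  have hden := density_even (N := n) (by omega) hS (MonoidHom.id (GK K)) continuous_id
    (fun ℓ _ => qrep (β ℓ)) (fun ℓ _ => (hβ ℓ).genSys) (fun ℓ _ => T.Q.map (algebraMap ℚ ℚ_[ℓ]))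
    (fun ℓ _ => (hβ ℓ).formSys) hw₀ u hu hI hII
  obtain ⟨ℓ₀, hp, hℓ, hnot⟩ := exists_prime hden (n + T.Q.det.num.natAbs + T.Q.det.den)
  haveI : Fact ℓ₀.Prime := ⟨hp⟩
  refine ⟨ℓ₀, ⟨hp⟩, Or.inr ⟨hn, h8, fun h => ?_, ?_⟩, ?_⟩
  · rcases (Nat.Prime.dvd_mul hp).1 h with h | h
    · have := Nat.le_of_dvd (by omega) h
      omega
    · have := Nat.le_of_dvd (by omega) h
      omega
  · rw [FB.val_zero hp (by omega) (by omega) (Pool.Agent.W74.PG.det_ne T)]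
    exact Even.zero
  · by_contra hcon
    refine hnot ⟨⟨hp⟩, fun h => hcon fun X hX => ?_⟩
    exact h X ((R932.skew_iff (qsymm T)).1 hX)

end places

end Pool.Agent.T2H36.FP
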