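import Pool.Agent.T2H36.FB.A3

set_option autoImplicit false
set_option linter.unusedSectionVars false
set_option linter.style.haveILetI false

/-!
Certificates at places, part 1: several summands, with one prime for each summand and one place for each
pair of summands.
-/

open MvPolynomial Matrix Filter Topology NumberField IsDedekindDomain
open Pool.Agent.Y142.ZO Pool.Agent.Y142.ZI
open Pool.Agent.Y142.ZS (Sim SpLie)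
open Pool.Agent.Y95.MT
open Pool.Agent.W544.PG (HS BD bl)
open Pool.Agent.T2H36.MG (blk InG)
open Pool.Agent.T2H36.IX

namespace Pool.Agent.T2H36.FP

open Pool.Agent.R932 Pool.Agent.R932.OP

section joint

variable {K : Type} [Field K] [NumberField K] {ι : Type} [Fintype ι] [DecidableEq ι] {n : ι → ℕ}
  {S : Set (HeightOneSpectrum (𝓞 K))} {P : ι → HeightOneSpectrum (𝓞 K) → Polynomial ℚ} {Γ : Type}
  [Group Γ] [TopologicalSpace Γ] [IsTopologicalGroup Γ] [CompactSpace Γ] {s : GK K →* Γ}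
  {T : ∀ i, HS (n i)}

/-- **one prime for each summand, one place for each pair** -/
theorem joint_bigP (hS : S.Finite) (hs : Continuous s)
    (β : ∀ (i : ι) (ℓ : ℕ) [Fact ℓ.Prime], Γ →* Matrix (Fin (n i)) (Fin (n i)) ℤ_[ℓ])
    (hβ : ∀ (i : ι) (ℓ : ℕ) [Fact ℓ.Prime], RepT s (T i) S (P i) ℓ (β i ℓ))
    {D : ι → ℕ} {Z : ∀ i, Matrix (Fin (n i)) (Fin (n i)) ℤ} (hD : ∀ i, D i ≠ 0)
    (hsys : ∀ (i : ι) (ℓ : ℕ) [Fact ℓ.Prime],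
      IntegralSys K (n i) ℓ s (β i ℓ) ((Z i).map (Int.cast : ℤ → ℤ_[ℓ])) S (P i))
    {b : ι → ℕ} (hb : ∀ (i : ι) (ℓ : ℕ) [Fact ℓ.Prime], b i < ℓ →
      IsUnit ((Z i).map (Int.cast : ℤ → ℤ_[ℓ])).det)
    (hgen : ∀ (i : ι) (ℓ : ℕ) [Fact ℓ.Prime], genM ℓ ((Z i).map (Int.cast : ℤ → ℤ_[ℓ])) =
        (D i : ℚ_[ℓ]) • (T i).Q.map (algebraMap ℚ ℚ_[ℓ]))
    (hone : ∀ i, ∃ (ℓ₀ : ℕ) (_ : Fact ℓ₀.Prime), GoodPrime (n i) (T i).Q ℓ₀ ∧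
      FullLie ℓ₀ ((qrep (β i ℓ₀)).comp s) ((T i).Q.map (algebraMap ℚ ℚ_[ℓ₀])))
    (hind : ∀ i j, i ≠ j → ∃ v, v ∉ S ∧ PO.IndRoot (P i v) (P j v)) :
    ∃ Λ : Set ℕ, Y142.ZI.DensityZero {ℓ | ℓ.Prime ∧ ℓ ∉ Λ} ∧ (∀ i, ∀ ℓ ∈ Λ, n i < ℓ) ∧
      (∀ (i : ι) (ℓ : ℕ) [Fact ℓ.Prime], ℓ ∈ Λ → IsUnit ((Z i).map (Int.cast : ℤ → ℤ_[ℓ])).det) ∧
      (∀ (i : ι) (ℓ : ℕ) [Fact ℓ.Prime], ℓ ∈ Λ →
        NormBig ℓ (β i ℓ) ((Z i).map (Int.cast : ℤ → ℤ_[ℓ]))) ∧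
      ∀ (i j : ι) (ℓ : ℕ) [Fact ℓ.Prime], i ≠ j → ℓ ∈ Λ →
        ∃ g : Γ, β j ℓ g = 1 ∧ red ℓ (β i ℓ g) ≠ 1 ∧ red ℓ (β i ℓ g) ^ ℓ = 1 := by
  classical
  have hfive : ∀ i, 5 ≤ n i := fun i => by
    obtain ⟨ℓ₀, -, h, -⟩ := hone i
    exact h.five
  have hb0 : ∀ i, ∃ b' : ℕ, Y142.ZI.DensityZero {ℓ | ∃ _ : Fact ℓ.Prime, b' < ℓ ∧
      ¬ NB ℓ (β i ℓ) ((Z i).map (Int.cast : ℤ → ℤ_[ℓ]))} := by
    intro i
    obtain ⟨ℓ₀, hp₀, hgood, hfull⟩ := hone i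
    exact main_bigS (T := T i) hS hs (fun ℓ _ => β i ℓ) (fun ℓ _ => hβ i ℓ)
      (hD i) (fun ℓ _ => hsys i ℓ) (fun ℓ _ => hb i ℓ) (fun ℓ _ => hgen i ℓ) ℓ₀ hgood hfull
  choose b' hb' using hb0
  -- the pairs
  have hpair : ∀ i j, i ≠ j → ∃ c : ℕ, ∀ (ℓ : ℕ) [Fact ℓ.Prime], c < ℓ →
      IsUnit ((Z i).map (Int.cast : ℤ → ℤ_[ℓ])).det → IsUnit ((Z j).map (Int.cast : ℤ → ℤ_[ℓ])).det →
      NB ℓ (β i ℓ) ((Z i).map (Int.cast : ℤ → ℤ_[ℓ])) →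
      NB ℓ (β j ℓ) ((Z j).map (Int.cast : ℤ → ℤ_[ℓ])) →
      ∃ g : Γ, β j ℓ g = 1 ∧ red ℓ (β i ℓ g) ≠ 1 ∧ red ℓ (β i ℓ g) ^ ℓ = 1 := by
    intro i j hij
    obtain ⟨v, hvS, hind'⟩ := hind i j hij
    obtain ⟨ℓ₁, hℓ₁, hp₁⟩ := Nat.exists_infinite_primes (Ideal.absNorm v.asIdeal + 1)
    haveI : Fact ℓ₁.Prime := ⟨hp₁⟩
    have hvℓ₁ : (ℓ₁ : 𝓞 K) ∉ v.asIdeal := not_mem_of_lt v hp₁ (by omega)
    obtain ⟨hm₁, hd₁, h0₁⟩ := repT_poly (hβ i ℓ₁) hvS hvℓ₁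
    obtain ⟨hm₂, hd₂, h0₂⟩ := repT_poly (hβ j ℓ₁) hvS hvℓ₁
    obtain ⟨c, hc⟩ := pair_large (hfive i) (hfive j) hm₁ hm₂ hd₁ hd₂ h0₁ h0₂ hind'
    refine ⟨max c (Ideal.absNorm v.asIdeal), ?_⟩
    intro ℓ hp hℓ hui huj hNi hNj
    rw [max_lt_iff] at hℓ
    obtain ⟨σ, hσ⟩ := Pool.Agent.W401.Frob.exists_frob v
    have hvl := not_mem_of_lt v hp.out hℓ.2
    exact hc ℓ hℓ.1 Γ (β i ℓ) (β j ℓ) _ _ (hβ i ℓ).cont (hβ j ℓ).cont (hsys i ℓ).2.1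
      (hsys j ℓ).2.1 hui huj (hsys i ℓ).2.2.2.1 (hsys j ℓ).2.2.2.1 hNi hNj (s σ⁻¹)
      ((hβ i ℓ).frob v hvS hvl σ hσ) ((hβ j ℓ).frob v hvS hvl σ hσ)
  have hpair' : ∀ i j, ∃ c : ℕ, i ≠ j → ∀ (ℓ : ℕ) [Fact ℓ.Prime], c < ℓ →
      IsUnit ((Z i).map (Int.cast : ℤ → ℤ_[ℓ])).det → IsUnit ((Z j).map (Int.cast : ℤ → ℤ_[ℓ])).det →
      NB ℓ (β i ℓ) ((Z i).map (Int.cast : ℤ → ℤ_[ℓ])) →
      NB ℓ (β j ℓ) ((Z j).map (Int.cast : ℤ → ℤ_[ℓ])) →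
      ∃ g : Γ, β j ℓ g = 1 ∧ red ℓ (β i ℓ g) ≠ 1 ∧ red ℓ (β i ℓ g) ^ ℓ = 1 := by
    intro i j
    by_cases hij : i = j
    · exact ⟨0, fun h => absurd hij h⟩
    · obtain ⟨c, hc⟩ := hpair i j hij
      exact ⟨c, fun _ => hc⟩
  choose c hc using hpair'
  let M : ℕ := ∑ i, (b i + b' i + n i + ∑ j, c i j)
  have hMi : ∀ i, b i + b' i + n i + ∑ j, c i j ≤ M := fun i =>
    Finset.single_le_sum (f := fun i => b i + b' i + n i + ∑ j, c i j) (fun _ _ => Nat.zero_le _)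
      (Finset.mem_univ i)
  have hcij : ∀ i j, c i j ≤ ∑ j, c i j := fun i j =>
    Finset.single_le_sum (f := fun j => c i j) (fun _ _ => Nat.zero_le _) (Finset.mem_univ j)
  refine ⟨{ℓ | M < ℓ ∧ ∀ _ : Fact ℓ.Prime, ∀ i, NB ℓ (β i ℓ) ((Z i).map (Int.cast : ℤ → ℤ_[ℓ]))},
    ?_, ?_, ?_, ?_, ?_⟩
  · refine Y142.ZI.DensityZero.mono ((densityZero_finite
      (Set.finite_Iic M)).union (densityZero_iUnion hb')) ?_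
    rintro ℓ ⟨hp, hℓ⟩
    by_cases h1 : M < ℓ
    · right
      have h2 : ¬ ∀ _ : Fact ℓ.Prime, ∀ i, NB ℓ (β i ℓ) ((Z i).map (Int.cast : ℤ → ℤ_[ℓ])) :=
        fun h => hℓ ⟨h1, h⟩
      push Not at h2
      obtain ⟨hp', i, hi⟩ := h2
      rw [Set.mem_iUnion]
      exact ⟨i, hp', by have := hMi i; omega, hi⟩
    · left
      exact not_lt.1 h1
  · rintro i ℓ ⟨h1, -⟩
    have := hMi i
    omega
  · rintro i ℓ _ ⟨h1, -⟩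
    have := hMi i
    exact hb i ℓ (by omega)
  · rintro i ℓ _ ⟨-, h1⟩
    exact (h1 _ i).1
  · rintro i j ℓ _ hij ⟨h1, h2⟩
    have h3 := hMi i
    have h4 := hMi j
    have h5 := hcij i j
    exact hc i j hij ℓ (by omega) (hb i ℓ (by omega)) (hb j ℓ (by omega)) (h2 _ i) (h2 _ j)

end joint

section final

variable {K : Type} [Field K] [NumberField K] {κ : Type} [Fintype κ] [DecidableEq κ] {ι : Type}
  [Fintype ι] [DecidableEq ι] {n : ι → ℕ} {S : Set (HeightOneSpectrum (𝓞 K))}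
  {P : ι → HeightOneSpectrum (𝓞 K) → Polynomial ℚ} {Γ : Type} [Group Γ] [TopologicalSpace Γ]
  [IsTopologicalGroup Γ] [CompactSpace Γ] {s : GK K →* Γ} {T : ∀ i, HS (n i)}

/-- **the adelic statement from certificates for the summands and the pairs** -/
theorem main_sumP (hB : MG.Big κ (fun i => (T i).Q) (hSum κ T)) (hS : S.Finite) (hs : Continuous s)
    (α : ∀ (ℓ : ℕ) [Fact ℓ.Prime], Γ →* Matrix κ κ ℤ_[ℓ])
    (hα : ∀ (ℓ : ℕ) [Fact ℓ.Prime], (Set.range (α ℓ)).Finite)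
    (β : ∀ (i : ι) (ℓ : ℕ) [Fact ℓ.Prime], Γ →* Matrix (Fin (n i)) (Fin (n i)) ℤ_[ℓ])
    (hβ : ∀ (i : ι) (ℓ : ℕ) [Fact ℓ.Prime], RepT s (T i) S (P i) ℓ (β i ℓ))
    (hconn : ∀ (ℓ : ℕ) [Fact ℓ.Prime], Conn (totS (α ℓ) (fun i => β i ℓ)))
    (hone : ∀ i, ∃ (ℓ₀ : ℕ) (_ : Fact ℓ₀.Prime), GoodPrime (n i) (T i).Q ℓ₀ ∧
      FullLie ℓ₀ ((qrep (β i ℓ₀)).comp s) ((T i).Q.map (algebraMap ℚ ℚ_[ℓ₀])))
    (hind : ∀ i j, i ≠ j → ∃ v, v ∉ S ∧ PO.IndRoot (P i v) (P j v)) :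
    ∃ Λ : Set ℕ, Y142.ZI.DensityZero {ℓ | ℓ.Prime ∧ ℓ ∉ Λ} ∧
      AdelicLe (2 ^ Fintype.card ι) (hSum κ T) (fun ℓ _ => totS (α ℓ) (fun i => β i ℓ)) Λ := by
  classical
  have hfive : ∀ i, 5 ≤ n i := fun i => by
    obtain ⟨ℓ₀, -, h, -⟩ := hone i
    exact h.five
  have hpos : ∀ i, 0 < n i := fun i => by have := hfive i; omega
  have hQ : ∀ i, ((T i).Q).det ≠ 0 := fun i => Pool.Agent.W74.PG.det_ne (T i)
  choose D Z hD hZ hsys hb hgen using fun i => int_form hs (fun ℓ _ => β i ℓ) (fun ℓ _ => hβ i ℓ)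
  choose b hb using hb
  obtain ⟨Λ, hΛ, hn, hun, hbig, hpair⟩ := joint_bigP hS hs β hβ hD (fun i ℓ _ => hsys i ℓ)
    (fun i ℓ _ => hb i ℓ) (fun i ℓ _ => hgen i ℓ) hone hind
  refine ⟨Λ, hΛ, ?_⟩
  have hBs : ∀ (i : ι) (ℓ : ℕ) [Fact ℓ.Prime], ((Z i).map (Int.cast : ℤ → ℤ_[ℓ]))ᵀ =
      (Z i).map (Int.cast : ℤ → ℤ_[ℓ]) := by
    intro i ℓ _
    rw [← Matrix.transpose_map, z_symm (hZ i)]
  have hiso : ∀ (i : ι) (ℓ : ℕ) [Fact ℓ.Prime] (g : Γ),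
      (β i ℓ g)ᵀ * (Z i).map (Int.cast : ℤ → ℤ_[ℓ]) * β i ℓ g = (Z i).map (Int.cast : ℤ → ℤ_[ℓ]) :=
    fun i ℓ _ g => (iso_iff (hD i) (hZ i) ℓ _).1 ((hβ i ℓ).form g)
  have hα1 : ∀ (ℓ : ℕ) [Fact ℓ.Prime] (σ : Γ), α ℓ σ = 1 := fun ℓ _ σ => (hconn ℓ).leftS (hα ℓ) σ
  have hβ1 : ∀ (i : ι) (ℓ : ℕ) [Fact ℓ.Prime] (σ : Γ), (β i ℓ σ).det = 1 := fun i ℓ _ σ =>
    (hconn ℓ).rightS i (fun σ => det_pm (z_det (hD i) (hZ i) ℓ) (hiso i ℓ σ)) σ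
  have htot : ∀ (ℓ : ℕ) [Fact ℓ.Prime] (σ : Γ), totS (α ℓ) (fun i => β i ℓ) σ =
      MG.emb κ fun i => β i ℓ σ := by
    intro ℓ _ σ
    show fromBlocks (α ℓ σ) 0 0 _ = _
    rw [hα1]
    rfl
  refine ⟨?_, fun ℓ _ => {g | ∃ u : ∀ i, Matrix (Fin (n i)) (Fin (n i)) ℤ_[ℓ], g = MG.emb κ u ∧
    ∀ i, (u i)ᵀ * (Z i).map (Int.cast : ℤ → ℤ_[ℓ]) * u i = (Z i).map (Int.cast : ℤ → ℤ_[ℓ]) ∧
      (u i).det = 1 ∧ red ℓ (u i) ∈ Om ℓ (red ℓ ((Z i).map (Int.cast : ℤ → ℤ_[ℓ])))}, ?_, ?_⟩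
  · intro ℓ _ hℓ σ
    rw [htot, mem_GZS hpos hB]
    exact ⟨_, rfl, fun i => ⟨(hβ i ℓ).form σ, hβ1 i ℓ σ⟩⟩
  · intro ℓ _ hℓ
    refine ⟨?_, ?_, ?_, ?_, ?_⟩
    · rintro _ ⟨u, rfl, hu⟩
      exact (mem_GZS hpos hB).2 ⟨u, rfl, fun i => ⟨(iso_iff (hD i) (hZ i) ℓ _).2 (hu i).1,
        (hu i).2.1⟩⟩
    · refine ⟨fun i => 1, MG.emb_one.symm, fun i => ⟨by rw [transpose_one, one_mul, mul_one],
        det_one, ?_⟩⟩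
      rw [red_one']
      exact Submonoid.one_mem _
    · rintro _ ⟨u, rfl, hu⟩ _ ⟨v, rfl, hv⟩
      refine ⟨fun i => u i * v i, MG.emb_mul _ _, fun i => ⟨?_, ?_, ?_⟩⟩
      · rw [transpose_mul]
        calc (v i)ᵀ * (u i)ᵀ * (Z i).map (Int.cast : ℤ → ℤ_[ℓ]) * (u i * v i) =
            (v i)ᵀ * ((u i)ᵀ * (Z i).map (Int.cast : ℤ → ℤ_[ℓ]) * u i) * v i := by
              simp only [mul_assoc]
          _ = _ := by rw [(hu i).1, (hv i).1]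
      · rw [det_mul, (hu i).2.1, (hv i).2.1, one_mul]
      · rw [Lft.red_mul]
        exact Submonoid.mul_mem _ (hu i).2.2 (hv i).2.2
    · rintro _ ⟨u, rfl, hu⟩
      choose u' h1 h2 h3 using fun i => iso_inv (hun i ℓ hℓ) (hu i).1
      refine ⟨u', ?_, fun i => ⟨h3 i, ?_, om_inv (by rw [← Lft.red_mul, h1, red_one']) (hu i).2.2⟩⟩
      · refine Matrix.inv_eq_right_inv ?_
        rw [MG.emb_mul, ← MG.emb_one (κ := κ) (n := n) (R := ℤ_[ℓ])]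
        congr 1
        funext i
        exact h2 i
      · have h4 := congrArg Matrix.det (h1 i)
        rwa [det_mul, (hu i).2.1, mul_one, det_one] at h4
    · choose w hw hwd hall using fun i => index_two (show ℓ ≠ 2 by
        have := hn i ℓ hℓ
        have := hfive i
        omega) (by have := hfive i; omega) (hBs i ℓ) (hun i ℓ hℓ)
      let rep : Finset ι → Matrix (κ ⊕ Σ i, Fin (n i)) (κ ⊕ Σ i, Fin (n i)) ℤ_[ℓ] := fun A =>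
        MG.emb κ fun i => if i ∈ A then w i else 1
      refine ⟨Set.range rep, Set.finite_range _, ?_, ?_, ?_⟩
      · have h1 : (Set.range rep).ncard ≤ Nat.card (Finset ι) := by
          rw [← Set.image_univ, ← Set.ncard_univ]
          exact Set.ncard_image_le (Set.toFinite _)
        refine h1.trans (le_of_eq ?_)
        rw [Nat.card_eq_fintype_card, Fintype.card_finset]
      · rintro _ ⟨A, rfl⟩
        refine (mem_GZS hpos hB).2 ⟨_, rfl, fun i => ?_⟩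
        by_cases hi : i ∈ A
        · rw [if_pos hi]
          exact ⟨(iso_iff (hD i) (hZ i) ℓ _).2 (hw i), hwd i⟩
        · rw [if_neg hi]
          exact ⟨(iso_iff (hD i) (hZ i) ℓ _).2 (by rw [transpose_one, one_mul, mul_one]), det_one⟩
      · intro g hg
        obtain ⟨v, rfl, hv⟩ := (mem_GZS hpos hB).1 hg
        have h1 : ∀ i, ∃ (t : Bool) (ω : Matrix (Fin (n i)) (Fin (n i)) ℤ_[ℓ]),
            (ωᵀ * (Z i).map (Int.cast : ℤ → ℤ_[ℓ]) * ω = (Z i).map (Int.cast : ℤ → ℤ_[ℓ]) ∧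
            ω.det = 1 ∧ red ℓ ω ∈ Om ℓ (red ℓ ((Z i).map (Int.cast : ℤ → ℤ_[ℓ])))) ∧
            v i = (if t = true then w i else 1) * ω := by
          intro i
          rcases hall i (v i) ((iso_iff (hD i) (hZ i) ℓ _).1 (hv i).1) (hv i).2 with
            h2 | ⟨ω, h2, h3, h4, h5⟩
          · exact ⟨false, v i, ⟨(iso_iff (hD i) (hZ i) ℓ _).1 (hv i).1, (hv i).2, h2⟩, by simp⟩
          · exact ⟨true, ω, ⟨h2, h3, h4⟩, by simpa using h5⟩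
        choose t ω hω hvω using h1
        refine ⟨rep (Finset.univ.filter fun i => t i = true), ⟨_, rfl⟩, MG.emb κ ω,
          ⟨ω, rfl, hω⟩, ?_⟩
        rw [MG.emb_mul]
        congr 1
        funext i
        rw [hvω i]
        congr 1
        simp
  · intro h hh
    have h1 : ∀ (i : ι) (ℓ : ℕ) [Fact ℓ.Prime], ℓ ∈ Λ →
        (blk (h ℓ) i)ᵀ * (Z i).map (Int.cast : ℤ → ℤ_[ℓ]) * blk (h ℓ) i =
          (Z i).map (Int.cast : ℤ → ℤ_[ℓ]) ∧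
        red ℓ (blk (h ℓ) i) ∈ Om ℓ (red ℓ ((Z i).map (Int.cast : ℤ → ℤ_[ℓ]))) := by
      intro i ℓ _ hℓ
      obtain ⟨u, h2, hu⟩ := hh ℓ hℓ
      rw [h2, MG.blk_emb]
      exact ⟨(hu i).1, (hu i).2.2⟩
    obtain ⟨σ, hσ⟩ := adelic2 (fun i => hfive i) Λ hn β (fun i ℓ _ => (hβ i ℓ).cont)
      (fun i ℓ _ => (Z i).map (Int.cast : ℤ → ℤ_[ℓ])) hBs hiso hun hbig hpair
      (fun i ℓ _ => blk (h ℓ) i) h1
    refine ⟨σ, fun ℓ _ hℓ => ?_⟩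
    obtain ⟨u, h2, -⟩ := hh ℓ hℓ
    rw [htot, h2]
    congr 1
    funext i
    rw [hσ i ℓ hℓ, h2, MG.blk_emb]

end final

end Pool.Agent.T2H36.FP
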